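import Pool.Agent.helper64.LP.Gk

/-!
# MP_32ee78_lc, module E: CNF satisfiability and the ordering instance
-/

set_option autoImplicit false

namespace Pool.Agent.helper64.LP

namespace ModE

open Filter Topology

/-- side of `x` with respect to `i, d` -/
def sd (i d x : ℝ) : ℝ := (i - x) * (x - d)

theorem sep_iff {i x d f : ℝ} : Sep i x d f ↔ sd i d x * sd i d f < 0 := by
  unfold Sep sd
  constructor <;> intro h <;> nlinarith

theorem side_aux {A B Y D : ℝ} (hA : A ≠ 0) (hB : B ≠ 0) (hY : Y ≠ 0) (hD : D ≠ 0)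
    (h1 : 0 < (A * (A - D)) * (B * (B - D))) (h2 : (A * (A - D)) * (Y * (Y - D)) < 0)
    (h3 : 0 < A * B * (A - Y) * (Y - B)) : False := by
  obtain ⟨p, hp⟩ : ∃ p, p = D⁻¹ - A⁻¹ := ⟨_, rfl⟩
  obtain ⟨q, hq⟩ : ∃ q, q = D⁻¹ - B⁻¹ := ⟨_, rfl⟩
  obtain ⟨r, hr⟩ : ∃ r, r = D⁻¹ - Y⁻¹ := ⟨_, rfl⟩
  have e1 : (A * (A - D)) * (B * (B - D)) = p * q * (A * B * D) ^ 2 := by
    rw [hp, hq]; field_simp
  have e2 : (A * (A - D)) * (Y * (Y - D)) = p * r * (A * Y * D) ^ 2 := by
    rw [hp, hr]; field_simp
  have e3 : A * B * (A - Y) * (Y - B) = (p - r) * (r - q) * (A * B * Y) ^ 2 := by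
    rw [hp, hr, hq]; field_simp; ring
  have f1 : 0 < p * q := by
    rw [e1] at h1
    exact pos_of_mul_pos_left h1 (sq_nonneg _)
  have f2 : p * r < 0 := by
    rw [e2] at h2
    by_contra hc
    push Not at hc
    have := mul_nonneg hc (sq_nonneg (A * Y * D))
    linarith
  have f3 : 0 < (p - r) * (r - q) := by
    rw [e3] at h3
    exact pos_of_mul_pos_left h3 (sq_nonneg _)
  rcases lt_trichotomy p 0 with hp0 | hp0 | hp0
  · have hq0 : q < 0 := by
      by_contra hc; push Not at hc
      have := mul_nonneg_of_nonpos_of_nonpos hp0.le (neg_nonpos.2 hc)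
      linarith
    have hr0 : 0 < r := by
      by_contra hc; push Not at hc
      have := mul_nonneg_of_nonpos_of_nonpos hp0.le hc
      linarith
    have := mul_neg_of_neg_of_pos (sub_neg.2 (hp0.trans hr0)) (sub_pos.2 (hq0.trans hr0))
    linarith
  · rw [hp0] at f1; simp at f1
  · have hq0 : 0 < q := by
      by_contra hc; push Not at hc
      have := mul_nonneg hp0.le (neg_nonneg.2 hc)
      linarith
    have hr0 : r < 0 := by
      by_contra hc; push Not at hc
      have := mul_nonneg hp0.le hc
      linarith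
    have := mul_neg_of_pos_of_neg (sub_pos.2 (hr0.trans hp0)) (sub_neg.2 (hr0.trans hq0))
    linarith

theorem same_side {i d f a b y : ℝ} (ha : ¬ Sep i a d f) (hb : ¬ Sep i b d f)
    (hay : Sep i a y b) (hf : f ≠ a) (hfb : f ≠ b) (hfy : f ≠ y) (hda : d ≠ a) (hdb : d ≠ b)
    (hdy : d ≠ y) (hid : i ≠ d) (hif : i ≠ f) (hdf : d ≠ f) : ¬ Sep i y d f := by
  intro hy
  rw [sep_iff] at ha hb hy
  have hia : i ≠ a := by rintro rfl; simp [Sep] at hay
  have hib : i ≠ b := by rintro rfl; simp [Sep] at hay
  have hiy : i ≠ y := by rintro rfl; simp [sd] at hy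
  have sne : ∀ x, i ≠ x → d ≠ x → sd i d x ≠ 0 := fun x h1 h2 =>
    mul_ne_zero (sub_ne_zero.2 h1) (sub_ne_zero.2 h2.symm)
  have ha' : 0 < sd i d a * sd i d f :=
    lt_of_le_of_ne (not_lt.1 ha) (mul_ne_zero (sne a hia hda) (sne f hif hdf)).symm
  have hb' : 0 < sd i d b * sd i d f :=
    lt_of_le_of_ne (not_lt.1 hb) (mul_ne_zero (sne b hib hdb) (sne f hif hdf)).symm
  have hf2 : 0 < sd i d f ^ 2 := by
    have := sne f hif hdf
    positivity
  apply side_aux (A := a - i) (B := b - i) (Y := y - i) (D := d - i) (sub_ne_zero.2 hia.symm)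
    (sub_ne_zero.2 hib.symm) (sub_ne_zero.2 hiy.symm) (sub_ne_zero.2 hid.symm)
  · have h1 := mul_pos ha' hb'
    have h2 : sd i d a * sd i d f * (sd i d b * sd i d f) =
      (sd i d a * sd i d b) * sd i d f ^ 2 := by ring
    rw [h2] at h1
    have h3 := pos_of_mul_pos_left h1 hf2.le
    unfold sd at h3
    nlinarith
  · have h1 := mul_neg_of_pos_of_neg ha' hy
    have h2 : sd i d a * sd i d f * (sd i d y * sd i d f) =
      (sd i d a * sd i d y) * sd i d f ^ 2 := by ring
    rw [h2] at h1
    have h3 : sd i d a * sd i d y < 0 := by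
      by_contra hc
      push Not at hc
      have := mul_nonneg hc hf2.le
      linarith
    unfold sd at h3
    nlinarith
  · unfold Sep at hay
    nlinarith

theorem litAt_of_lt {W C : Type} (lits : C → List (Bool × W)) (c : C) {s : ℕ}
    (h : s < (lits c).length) :
    litAt lits c s = .lit ((lits c)[s]).1 ((lits c)[s]).2 := by
  simp [litAt, List.getElem?_eq_getElem h]

theorem acc_cases {W C : Type} (lits : C → List (Bool × W)) (c : C) {s : ℕ}
    (h : s < (lits c).length) :
    (∃ b w, accAt lits c s = .lit b w) ∨ ∃ t, accAt lits c s = .aux c t := by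
  cases s with
  | zero => exact Or.inl ⟨_, _, by rw [accAt, litAt_of_lt lits c h]⟩
  | succ k => exact Or.inr ⟨_, rfl⟩

theorem acc_ne_inf {W C : Type} (lits : C → List (Bool × W)) (c : C) {s : ℕ}
    (h : s < (lits c).length) : accAt lits c s ≠ .inf := by
  rcases acc_cases lits c h with ⟨b, w, e⟩ | ⟨t, e⟩ <;> rw [e] <;> simp

theorem acc_ne_div {W C : Type} (lits : C → List (Bool × W)) (c : C) {s : ℕ}
    (h : s < (lits c).length) : accAt lits c s ≠ .div := by
  rcases acc_cases lits c h with ⟨b, w, e⟩ | ⟨t, e⟩ <;> rw [e] <;> simp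

theorem acc_ne_fls {W C : Type} (lits : C → List (Bool × W)) (c : C) {s : ℕ}
    (h : s < (lits c).length) : accAt lits c s ≠ .fls := by
  rcases acc_cases lits c h with ⟨b, w, e⟩ | ⟨t, e⟩ <;> rw [e] <;> simp

theorem acc_ne_aux {W C : Type} (lits : C → List (Bool × W)) (c : C) (s : Fin 3)
    (h : s.val < (lits c).length) : accAt lits c s.val ≠ .aux c s := by
  obtain ⟨s, hs⟩ := s
  cases s with
  | zero => simp only [accAt]; rw [litAt_of_lt lits c h]; simp
  | succ k =>
    simp only [accAt]
    intro h'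
    have := congrArg (fun x : El W C => match x with | .aux _ t => t.val | _ => 0) h'
    simp only at this
    omega

theorem acc_ne_lit {W C : Type} (lits : C → List (Bool × W)) (hl : GoodLits lits) (c : C) {s : ℕ}
    (h : s + 1 < (lits c).length) : accAt lits c s ≠ litAt lits c (s + 1) := by
  cases s with
  | zero =>
    simp only [accAt]
    rw [litAt_of_lt lits c h, litAt_of_lt lits c (by omega)]
    intro h'
    have h1 := (El.lit.inj h')
    have h2 : (lits c)[0] = (lits c)[0 + 1] := Prod.ext h1.1 h1.2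
    have h3 := ((hl c).1.getElem_inj_iff).1 h2
    omega
  | succ k =>
    simp only [accAt]
    rw [litAt_of_lt lits c h]
    simp

theorem inj4 {X : Type} (f : Fin 4 → X) (h01 : f 0 ≠ f 1) (h02 : f 0 ≠ f 2) (h03 : f 0 ≠ f 3)
    (h12 : f 1 ≠ f 2) (h13 : f 1 ≠ f 3) (h23 : f 2 ≠ f 3) : Function.Injective f := by
  intro i j hij
  fin_cases i <;> fin_cases j <;> simp_all

/-- general position -/
theorem perturb {ι κ : Type} [Finite ι] [Finite κ] (φ : ι → ℝ) (q : κ → Fin 4 → ι)
    (h : ∀ τ, Sep (φ (q τ 0)) (φ (q τ 1)) (φ (q τ 2)) (φ (q τ 3))) :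
    ∃ ψ : ι → ℝ, Function.Injective ψ ∧
      ∀ τ, Sep (ψ (q τ 0)) (ψ (q τ 1)) (ψ (q τ 2)) (ψ (q τ 3)) := by
  obtain ⟨e, he⟩ : ∃ e : ι → ℝ, Function.Injective e :=
    ⟨fun i => ((Finite.equivFin ι i : ℕ) : ℝ), fun i j hij => by
      have hij' : ((Finite.equivFin ι i : ℕ) : ℝ) = ((Finite.equivFin ι j : ℕ) : ℝ) := hij
      have : ((Finite.equivFin ι i : Fin _) : ℕ) = (Finite.equivFin ι j : Fin _) :=
        Nat.cast_injective hij'
      exact (Finite.equivFin ι).injective (Fin.ext this)⟩
  have h1 : ∀ p : ι × ι, ∀ᶠ t : ℝ in 𝓝[≠] 0, p.1 ≠ p.2 → φ p.1 + t * e p.1 ≠ φ p.2 + t * e p.2 := by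
    rintro ⟨x, y⟩
    by_cases hxy : φ x = φ y
    · filter_upwards [self_mem_nhdsWithin] with t ht hne heq
      have h2 : t * (e x - e y) = 0 := by linarith
      rcases mul_eq_zero.1 h2 with h3 | h3
      · exact ht h3
      · exact hne (he (by linarith))
    · have hc : ContinuousAt (fun t : ℝ => (φ x + t * e x) - (φ y + t * e y)) 0 := by fun_prop
      have h3 : (fun t : ℝ => (φ x + t * e x) - (φ y + t * e y)) 0 ≠ 0 := by
        simpa using sub_ne_zero.2 hxy
      have h4 := (hc.eventually_ne h3).filter_mono (nhdsWithin_le_nhds (s := {0}ᶜ))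
      filter_upwards [h4] with t ht _ heq
      exact ht (sub_eq_zero.2 heq)
  have h2 : ∀ τ, ∀ᶠ t : ℝ in 𝓝[≠] 0, Sep (φ (q τ 0) + t * e (q τ 0)) (φ (q τ 1) + t * e (q τ 1))
      (φ (q τ 2) + t * e (q τ 2)) (φ (q τ 3) + t * e (q τ 3)) := by
    intro τ
    have hτ := h τ
    unfold Sep at hτ ⊢
    have hc : ContinuousAt (fun t : ℝ => ((φ (q τ 0) + t * e (q τ 0)) - (φ (q τ 1) + t * e (q τ 1))) *
      ((φ (q τ 1) + t * e (q τ 1)) - (φ (q τ 2) + t * e (q τ 2))) *
      ((φ (q τ 2) + t * e (q τ 2)) - (φ (q τ 3) + t * e (q τ 3))) *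
      ((φ (q τ 3) + t * e (q τ 3)) - (φ (q τ 0) + t * e (q τ 0)))) 0 := by fun_prop
    have h3 := hc.eventually_lt (continuousAt_const (y := (0 : ℝ))) (by simpa using hτ)
    exact h3.filter_mono nhdsWithin_le_nhds
  have h3 := (eventually_all.2 h1).and (eventually_all.2 h2)
  obtain ⟨t, ht1, ht2⟩ := h3.exists
  refine ⟨fun x => φ x + t * e x, fun x y hxy => ?_, ht2⟩
  by_contra hne
  exact ht1 (x, y) hne hxy

theorem finite_El {W C : Type} [Finite W] [Finite C] : Finite (El W C) := by
  have : Function.Injective (fun x : El W C => match x with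
    | .inf => (Sum.inl 0 : Fin 3 ⊕ (Bool × W) ⊕ (C × Fin 3))
    | .div => Sum.inl 1
    | .fls => Sum.inl 2
    | .lit b w => Sum.inr (Sum.inl (b, w))
    | .aux c s => Sum.inr (Sum.inr (c, s))) := by
    intro x y h
    cases x <;> cases y <;> simp_all
  exact Finite.of_injective _ this

theorem finite_Tr {W C : Type} [Finite W] [Finite C] : Finite (Tr W C) := by
  have : Function.Injective (fun x : Tr W C => match x with
    | .neg w => (Sum.inl w : W ⊕ (C × Fin 3) ⊕ C)
    | .chain c s => Sum.inr (Sum.inl (c, s))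
    | .fin c => Sum.inr (Sum.inr c)) := by
    intro x y h
    cases x <;> cases y <;> simp_all
  exact Finite.of_injective _ this

/-- move `x` towards `y`, prefer the positive side -/
noncomputable def g (x y : ℝ) : ℝ :=
  if 0 < x ∨ y < 0 then (if x < y then x + 1 / 8 else x - 1 / 8) else y - 1 / 8

noncomputable def a (y : ℕ → ℝ) : ℕ → ℝ
  | 0 => y 0
  | s + 1 => g (a y s) (y (s + 1))

theorem a_inv (y : ℕ → ℝ) (n : ℕ) (hn : n ≤ 4) (h1 : ∀ s < n, 1 ≤ |y s|)
    (h2 : ∀ s < n, ∀ t < n, s ≠ t → 1 ≤ |y s - y t|) : ∀ s < n,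
    (∃ i ≤ s, |a y s - y i| ≤ s / 8) ∧ (0 < a y s ↔ ∃ i ≤ s, 0 < y i) ∧
    (s + 1 < n → (a y s < a y (s + 1) ∧ a y (s + 1) < y (s + 1)) ∨
      (y (s + 1) < a y (s + 1) ∧ a y (s + 1) < a y s)) := by
  have step : ∀ s, s + 1 < n → ((∃ i ≤ s, |a y s - y i| ≤ s / 8) ∧
      (0 < a y s ↔ ∃ i ≤ s, 0 < y i)) →
      ((∃ i ≤ s + 1, |a y (s + 1) - y i| ≤ ((s + 1 : ℕ) : ℝ) / 8) ∧
      (0 < a y (s + 1) ↔ ∃ i ≤ s + 1, 0 < y i)) ∧
      ((a y s < a y (s + 1) ∧ a y (s + 1) < y (s + 1)) ∨
      (y (s + 1) < a y (s + 1) ∧ a y (s + 1) < a y s)) := by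
    rintro s hs ⟨⟨i, hi, hd⟩, hpos⟩
    have hs2 : (s : ℝ) ≤ 2 := by
      have : s ≤ 2 := by omega
      exact_mod_cast this
    have hy1 := h1 i (by omega)
    have hy2 := h1 (s + 1) hs
    have hy3 := h2 i (by omega) (s + 1) hs (by omega)
    have hs0 : (0 : ℝ) ≤ s := Nat.cast_nonneg s
    rw [abs_le] at hd
    have hx0 : 3 / 4 ≤ |a y s| := by
      rcases le_abs.1 hy1 with h | h
      · exact le_abs.2 (Or.inl (by linarith))
      · exact le_abs.2 (Or.inr (by linarith))
    have hxy : a y s + 3 / 4 ≤ y (s + 1) ∨ y (s + 1) + 3 / 4 ≤ a y s := by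
      rcases le_abs.1 hy3 with h | h
      · right; linarith
      · left; linarith
    have hcast : ((s + 1 : ℕ) : ℝ) = s + 1 := by push_cast; ring
    by_cases hc : 0 < a y s ∨ y (s + 1) < 0
    · have ha : a y (s + 1) = if a y s < y (s + 1) then a y s + 1 / 8 else a y s - 1 / 8 := by
        rw [a, g, if_pos hc]
      have hpos' : 0 < a y s ↔ ∃ i ≤ s + 1, 0 < y i := by
        constructor
        · intro h
          obtain ⟨j, hj, hj'⟩ := hpos.1 h
          exact ⟨j, by omega, hj'⟩
        · rintro ⟨j, hj, hj'⟩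
          by_cases hjs : j ≤ s
          · exact hpos.2 ⟨j, hjs, hj'⟩
          · have : j = s + 1 := by omega
            subst this
            rcases hc with h | h
            · exact h
            · linarith
      rw [← hpos']
      by_cases hlt : a y s < y (s + 1)
      · rw [ha, if_pos hlt]
        refine ⟨⟨⟨i, by omega, ?_⟩, ?_⟩, Or.inl ⟨by linarith, ?_⟩⟩
        · rw [abs_le, hcast]; constructor <;> linarith
        · constructor
          · intro h
            rcases le_abs.1 hx0 with h' | h' <;> linarith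
          · intro h; linarith
        · rcases hxy with h | h <;> linarith
      · rw [ha, if_neg hlt]
        push Not at hlt
        refine ⟨⟨⟨i, by omega, ?_⟩, ?_⟩, Or.inr ⟨?_, by linarith⟩⟩
        · rw [abs_le, hcast]; constructor <;> linarith
        · constructor
          · intro h
            rcases le_abs.1 hx0 with h' | h' <;> linarith
          · intro h
            rcases le_abs.1 hx0 with h' | h' <;> linarith
        · rcases hxy with h | h <;> linarith
    · have ha : a y (s + 1) = y (s + 1) - 1 / 8 := by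
        rw [a, g, if_neg hc]
      push Not at hc
      obtain ⟨hx, hy⟩ := hc
      have hy' : 1 ≤ y (s + 1) := by
        rcases le_abs.1 hy2 with h | h <;> linarith
      have hx' : a y s ≤ - (3 / 4) := by
        rcases le_abs.1 hx0 with h | h <;> linarith
      rw [ha]
      refine ⟨⟨⟨s + 1, le_rfl, ?_⟩, ?_⟩, Or.inl ⟨by linarith, by linarith⟩⟩
      · rw [abs_le, hcast]; constructor <;> linarith
      · exact ⟨fun _ => ⟨s + 1, le_rfl, by linarith⟩, fun _ => by linarith⟩
  intro s
  induction s with
  | zero =>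
    intro hs
    have h0 : (∃ i ≤ 0, |a y 0 - y i| ≤ ((0 : ℕ) : ℝ) / 8) ∧ (0 < a y 0 ↔ ∃ i ≤ 0, 0 < y i) := by
      refine ⟨⟨0, le_rfl, by simp [a]⟩, ?_⟩
      simp [a]
    exact ⟨h0.1, h0.2, fun hs' => (step 0 hs' h0).2⟩
  | succ s ih =>
    intro hs
    obtain ⟨i1, i2, -⟩ := ih (by omega)
    have h3 := (step s hs ⟨i1, i2⟩).1
    exact ⟨h3.1, h3.2, fun hs' => (step (s + 1) hs' h3).2⟩

theorem sep_swap {i x d f : ℝ} : Sep i x d f ↔ Sep i f d x := by
  rw [sep_iff, sep_iff, mul_comm]

theorem sep_btw {M x a y : ℝ} (hx : x < M) (hy : y < M) (h : (x < a ∧ a < y) ∨ (y < a ∧ a < x)) :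
    Sep M x a y := by
  have h1 : 0 < (x - a) * (a - y) := by
    rcases h with ⟨h1, h2⟩ | ⟨h1, h2⟩
    · exact mul_pos_of_neg_of_neg (by linarith) (by linarith)
    · exact mul_pos (by linarith) (by linarith)
  have h2 : 0 < (M - x) * (M - y) := mul_pos (by linarith) (by linarith)
  have h3 := mul_pos h2 h1
  unfold Sep
  have e : (M - x) * (x - a) * (a - y) * (y - M) = - ((M - x) * (M - y) * ((x - a) * (a - y))) := by
    ring
  rw [e]
  linarith

/-- value of a literal -/
noncomputable def vv {W : Type} [Finite W] (α : W → Bool) (b : Bool) (w : W) : ℝ :=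
  (if α w = b then 1 else -1) * (((Finite.equivFin W w : ℕ) : ℝ) + 1)

theorem vv_pos {W : Type} [Finite W] {α : W → Bool} {b : Bool} {w : W} :
    0 < vv α b w ↔ α w = b := by
  have h0 : (0 : ℝ) ≤ ((Finite.equivFin W w : ℕ) : ℝ) := Nat.cast_nonneg _
  unfold vv
  split_ifs with h
  · simp only [one_mul, h, iff_true]; linarith
  · simp only [h, iff_false, not_lt]; linarith

theorem vv_neg {W : Type} [Finite W] {α : W → Bool} {b : Bool} {w : W} :
    vv α b w < 0 ↔ α w ≠ b := by
  have h0 : (0 : ℝ) ≤ ((Finite.equivFin W w : ℕ) : ℝ) := Nat.cast_nonneg _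
  unfold vv
  split_ifs with h
  · simp only [one_mul, h, ne_eq, not_true_eq_false, iff_false, not_lt]; linarith
  · simp only [ne_eq, h, not_false_iff, iff_true]; linarith

theorem vv_abs {W : Type} [Finite W] (α : W → Bool) (b : Bool) (w : W) :
    |vv α b w| = ((Finite.equivFin W w : ℕ) : ℝ) + 1 := by
  have h0 : (0 : ℝ) ≤ ((Finite.equivFin W w : ℕ) : ℝ) := Nat.cast_nonneg _
  unfold vv
  split_ifs with h
  · rw [one_mul, abs_of_nonneg (by linarith)]
  · rw [neg_one_mul, abs_neg, abs_of_nonneg (by linarith)]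

theorem vv_one {W : Type} [Finite W] (α : W → Bool) (b : Bool) (w : W) : 1 ≤ |vv α b w| := by
  rw [vv_abs]
  have h0 : (0 : ℝ) ≤ ((Finite.equivFin W w : ℕ) : ℝ) := Nat.cast_nonneg _
  linarith

theorem vv_le {W : Type} [Finite W] (α : W → Bool) (b : Bool) (w : W) :
    |vv α b w| ≤ (Nat.card W : ℝ) := by
  rw [vv_abs]
  have := (Finite.equivFin W w).isLt
  exact_mod_cast this

theorem vv_sep {W : Type} [Finite W] (α : W → Bool) {b b' : Bool} {w w' : W}
    (h : (b, w) ≠ (b', w')) : 1 ≤ |vv α b w - vv α b' w'| := by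
  have h0 : (0 : ℝ) ≤ ((Finite.equivFin W w : ℕ) : ℝ) := Nat.cast_nonneg _
  have h0' : (0 : ℝ) ≤ ((Finite.equivFin W w' : ℕ) : ℝ) := Nat.cast_nonneg _
  have hd : w ≠ w' → 1 ≤ |((Finite.equivFin W w : ℕ) : ℝ) - ((Finite.equivFin W w' : ℕ) : ℝ)| := by
    intro hw
    have h1 : (Finite.equivFin W w : ℕ) ≠ (Finite.equivFin W w' : ℕ) := fun e =>
      hw ((Finite.equivFin W).injective (Fin.ext e))
    rcases Nat.lt_or_gt_of_ne h1 with h2 | h2
    · have h3 : (((Finite.equivFin W w : ℕ) : ℝ)) + 1 ≤ ((Finite.equivFin W w' : ℕ) : ℝ) := by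
        exact_mod_cast h2
      exact le_abs.2 (Or.inr (by linarith))
    · have h3 : (((Finite.equivFin W w' : ℕ) : ℝ)) + 1 ≤ ((Finite.equivFin W w : ℕ) : ℝ) := by
        exact_mod_cast h2
      exact le_abs.2 (Or.inl (by linarith))
  unfold vv
  split_ifs with h1 h2 h2
  · have hw : w ≠ w' := by
      rintro rfl
      exact h (by rw [← h1, ← h2])
    have := hd hw
    rw [one_mul, one_mul, add_sub_add_right_eq_sub]
    exact this
  · exact le_abs.2 (Or.inl (by linarith))
  · exact le_abs.2 (Or.inr (by linarith))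
  · have hw : w ≠ w' := by
      rintro rfl
      apply h
      have : b = b' := by
        revert h1 h2
        cases α w <;> cases b <;> cases b' <;> simp
      rw [this]
    have := hd hw
    rw [neg_one_mul, neg_one_mul, ← neg_sub_neg, neg_neg, neg_neg, add_sub_add_right_eq_sub,
      abs_sub_comm]
    exact this

/-- values of the literals of a clause -/
noncomputable def yy {W C : Type} [Finite W] (lits : C → List (Bool × W)) (α : W → Bool) (c : C)
    (s : ℕ) : ℝ :=
  match (lits c)[s]? with
  | some l => vv α l.1 l.2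
  | none => -1

/-- values of the elements -/
noncomputable def ff {W C : Type} [Finite W] (lits : C → List (Bool × W)) (α : W → Bool) :
    El W C → ℝ
  | .inf => (Nat.card W : ℝ) + 2
  | .div => 0
  | .fls => -1
  | .lit b w => vv α b w
  | .aux c s => a (yy lits α c) (s.val + 1)

end ModE

open ModE

theorem quad_inj {W C : Type} (lits : C → List (Bool × W)) (hl : GoodLits lits) (τ : Tr W C)
    (hτ : Act lits τ) : Function.Injective (quad lits τ) := by
  cases τ with
  | neg w => apply inj4 <;> simp [quad]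
  | chain c s =>
    have hs : s.val + 1 < (lits c).length := hτ
    have h0 : s.val < (lits c).length := by omega
    have e := litAt_of_lt lits c hs
    apply inj4 <;> simp only [quad, Matrix.cons_val_zero, Matrix.cons_val_one, Matrix.cons_val]
    · exact (acc_ne_inf lits c h0).symm
    · simp
    · rw [e]; simp
    · exact acc_ne_aux lits c s h0
    · exact acc_ne_lit lits hl c hs
    · rw [e]; simp
  | fin c =>
    have h1 := (hl c).2.1
    have h0 : (lits c).length - 1 < (lits c).length := by omega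
    apply inj4 <;> simp only [quad, Matrix.cons_val_zero, Matrix.cons_val_one, Matrix.cons_val]
    · simp
    · simp
    · exact (acc_ne_inf lits c h0).symm
    · simp
    · exact (acc_ne_fls lits c h0).symm
    · exact (acc_ne_div lits c h0).symm

theorem cnf_iff {W C : Type} [Finite W] [Finite C] (lits : C → List (Bool × W))
    (hl : GoodLits lits) :
    (∃ α : W → Bool, ∀ c, ∃ l ∈ lits c, α l.2 = l.1) ↔
      ∃ φ : El W C → ℝ, Function.Injective φ ∧ ∀ τ, Act lits τ →
        Sep (φ (quad lits τ 0)) (φ (quad lits τ 1)) (φ (quad lits τ 2)) (φ (quad lits τ 3)) := by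
  have := finite_El (W := W) (C := C)
  have := finite_Tr (W := W) (C := C)
  constructor
  · rintro ⟨α, hα⟩
    have hyy : ∀ c s (h : s < (lits c).length),
        yy lits α c s = vv α ((lits c)[s]).1 ((lits c)[s]).2 := by
      intro c s h
      simp [yy, List.getElem?_eq_getElem h]
    have flit : ∀ c s, s < (lits c).length → ff lits α (litAt lits c s) = yy lits α c s := by
      intro c s h
      rw [litAt_of_lt lits c h, hyy c s h, ff]
    have facc : ∀ c s, s < (lits c).length → ff lits α (accAt lits c s) = a (yy lits α c) s := by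
      intro c s h
      have h4 := (hl c).2.2
      cases s with
      | zero => rw [accAt, flit c 0 h, a]
      | succ k =>
        have : k % 3 = k := Nat.mod_eq_of_lt (by omega)
        simp only [accAt, ff, this]
    have inv : ∀ c, _ := fun c => a_inv (yy lits α c) (lits c).length (hl c).2.2
      (by
        intro s hs
        rw [hyy c s hs]
        exact vv_one _ _ _)
      (by
        intro s hs t ht hst
        rw [hyy c s hs, hyy c t ht]
        apply vv_sep
        intro e
        exact hst (((hl c).1.getElem_inj_iff).1 e))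
    have hyM : ∀ c s, s < (lits c).length → |yy lits α c s| ≤ (Nat.card W : ℝ) := by
      intro c s hs
      rw [hyy c s hs]
      exact vv_le _ _ _
    have haM : ∀ c s, s < (lits c).length → a (yy lits α c) s < (Nat.card W : ℝ) + 2 := by
      intro c s hs
      obtain ⟨⟨i, hi, hd⟩, -⟩ := inv c s hs
      have h1 := hyM c i (by omega)
      have h2 := (hl c).2.2
      have h3 : (s : ℝ) ≤ 4 := by
        have : s ≤ 4 := by omega
        exact_mod_cast this
      rw [abs_le] at hd h1
      linarith
    obtain ⟨ψ, hψ, hS⟩ := perturb (κ := {τ : Tr W C // Act lits τ}) (ff lits α)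
      (fun τ => quad lits τ.1) (by
        rintro ⟨τ, hτ⟩
        cases τ with
        | neg w =>
          simp only [quad, Matrix.cons_val_zero, Matrix.cons_val_one, Matrix.cons_val, ff]
          have b1 := vv_le α true w
          have b2 := vv_le α false w
          rw [abs_le] at b1 b2
          apply sep_btw (by linarith) (by linarith)
          rcases hw : α w with _ | _
          · left
            exact ⟨vv_neg.2 (by rw [hw]; simp), vv_pos.2 hw⟩
          · right
            exact ⟨vv_neg.2 (by rw [hw]; simp), vv_pos.2 hw⟩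
        | chain c s =>
          have hs : s.val + 1 < (lits c).length := hτ
          simp only [quad, Matrix.cons_val_zero, Matrix.cons_val_one, Matrix.cons_val]
          rw [facc c s.val (by omega), flit c (s.val + 1) hs]
          simp only [ff]
          have b1 := hyM c (s.val + 1) hs
          rw [abs_le] at b1
          exact sep_btw (haM c _ (by omega)) (by linarith) ((inv c s.val (by omega)).2.2 hs)
        | fin c =>
          have h1 := (hl c).2.1
          simp only [quad, Matrix.cons_val_zero, Matrix.cons_val_one, Matrix.cons_val]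
          rw [facc c _ (by omega)]
          simp only [ff]
          have h0 : (0 : ℝ) ≤ (Nat.card W : ℝ) := Nat.cast_nonneg _
          apply sep_btw (by linarith) (haM c _ (by omega))
          left
          refine ⟨by norm_num, ?_⟩
          rw [(inv c _ (by omega)).2.1]
          obtain ⟨l, hl1, hl2⟩ := hα c
          obtain ⟨j, hj, rfl⟩ := List.mem_iff_getElem.1 hl1
          refine ⟨j, by omega, ?_⟩
          rw [hyy c j hj]
          exact vv_pos.2 hl2)
    exact ⟨ψ, hψ, fun τ hτ => hS ⟨τ, hτ⟩⟩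
  · rintro ⟨φ, hφ, h⟩
    classical
    refine ⟨fun w => decide (Sep (φ .inf) (φ (.lit true w)) (φ .div) (φ .fls)), ?_⟩
    by_contra hcon
    push Not at hcon
    obtain ⟨c, hc⟩ := hcon
    have hlit : ∀ l ∈ lits c, ¬ Sep (φ .inf) (φ (.lit l.1 l.2)) (φ .div) (φ .fls) := by
      rintro ⟨b, w⟩ hlm hS
      have h1 := hc _ hlm
      cases b with
      | true => simp only [ne_eq, decide_eq_true_eq] at h1; exact h1 hS
      | false =>
        simp only [ne_eq, decide_eq_false_iff_not, not_not] at h1
        have h2 := h (.neg w) trivial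
        simp only [quad, Matrix.cons_val_zero, Matrix.cons_val_one, Matrix.cons_val] at h2
        rw [sep_iff] at hS h1 h2
        have h3 := mul_pos_of_neg_of_neg hS h1
        have h4 := mul_neg_of_pos_of_neg h3 h2
        have h5 : sd (φ .inf) (φ .div) (φ (.lit false w)) * sd (φ .inf) (φ .div) (φ .fls) *
          (sd (φ .inf) (φ .div) (φ (.lit true w)) * sd (φ .inf) (φ .div) (φ .fls)) *
          (sd (φ .inf) (φ .div) (φ (.lit true w)) * sd (φ .inf) (φ .div) (φ (.lit false w))) =
          (sd (φ .inf) (φ .div) (φ (.lit false w)) * sd (φ .inf) (φ .div) (φ (.lit true w)) *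
            sd (φ .inf) (φ .div) (φ .fls)) ^ 2 := by ring
        rw [h5] at h4
        exact absurd h4 (not_lt.2 (sq_nonneg _))
    have hlitAt : ∀ s, s < (lits c).length →
        ¬ Sep (φ .inf) (φ (litAt lits c s)) (φ .div) (φ .fls) := by
      intro s hs
      rw [litAt_of_lt lits c hs]
      exact hlit _ (List.getElem_mem hs)
    have hacc : ∀ s, s < (lits c).length →
        ¬ Sep (φ .inf) (φ (accAt lits c s)) (φ .div) (φ .fls) := by
      intro s
      induction s with
      | zero => intro hs; exact hlitAt 0 hs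
      | succ k ih =>
        intro hs
        have h4 := (hl c).2.2
        have hk3 : k < 3 := by omega
        have hk : accAt lits c (k + 1) = .aux c ⟨k, hk3⟩ := by
          simp only [accAt, Nat.mod_eq_of_lt hk3]
        have h1 := h (.chain c ⟨k, hk3⟩) hs
        simp only [quad, Matrix.cons_val_zero, Matrix.cons_val_one, Matrix.cons_val] at h1
        have hk0 : k < (lits c).length := by omega
        have e := litAt_of_lt lits c hs
        rw [hk]
        apply same_side (ih hk0) (hlitAt (k + 1) hs) h1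
        · exact fun e' => (acc_ne_fls lits c hk0) (hφ e').symm
        · rw [e]; exact fun e' => by have := hφ e'; simp at this
        · exact fun e' => by have := hφ e'; simp at this
        · exact fun e' => (acc_ne_div lits c hk0) (hφ e').symm
        · rw [e]; exact fun e' => by have := hφ e'; simp at this
        · exact fun e' => by have := hφ e'; simp at this
        · exact fun e' => by have := hφ e'; simp at this
        · exact fun e' => by have := hφ e'; simp at this
        · exact fun e' => by have := hφ e'; simp at this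
    have h1 := h (.fin c) trivial
    simp only [quad, Matrix.cons_val_zero, Matrix.cons_val_one, Matrix.cons_val] at h1
    have h2 := (hl c).2.1
    exact hacc _ (by omega) (sep_swap.1 h1)

end Pool.Agent.helper64.LP
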